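import Pool.Agent.Helper85.ProC.Goals

/-!
MP_ac806c_lc, packets RANK and TORS.
-/

set_option autoImplicit false

namespace Pool.Agent.Helper10.ProC

open Pool.Agent.Helper85.ProC

theorem stmtRank : StmtRank := by
  intro p _ d A B hAB hrank q hq
  have h1 := Submodule.finrank_quotient_add_finrank (R := ℤ_[p]) (M := B) (A.comap B.subtype)
  have h2 : Module.finrank ℤ_[p] (A.comap B.subtype) = Module.finrank ℤ_[p] A :=
    LinearEquiv.finrank_eq (Submodule.comapSubtypeEquivOfLe hAB)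
  have h3 : Module.finrank ℤ_[p] (B ⧸ A.comap B.subtype) = 0 := by omega
  rw [Module.finrank_eq_zero_iff_isTorsion] at h3
  obtain ⟨⟨a, ha⟩, h4⟩ := @h3 (Submodule.Quotient.mk ⟨q, hq⟩)
  have ha0 : a ≠ 0 := nonZeroDivisors.ne_zero ha
  have h5 : a • q ∈ A := by
    have h6 : (Submodule.Quotient.mk (a • (⟨q, hq⟩ : B)) : B ⧸ A.comap B.subtype) = 0 := h4
    rw [Submodule.Quotient.mk_eq_zero] at h6
    exact h6
  refine ⟨a.valuation, ?_⟩
  have h7 := PadicInt.unitCoeff_spec ha0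
  have h8 : (p : ℤ_[p]) ^ a.valuation = ((PadicInt.unitCoeff ha0)⁻¹ : ℤ_[p]ˣ) * a := by
    rw [Units.eq_inv_mul_iff_mul_eq]
    exact h7.symm
  rw [h8, mul_smul]
  exact A.smul_mem _ h5

theorem stmtTors : StmtTors := by
  intro p _ d L S hS hLS hcap
  set M := (Fin d → ℤ_[p]) ⧸ L with hM
  set N : Submodule ℤ_[p] M := Submodule.torsionBy ℤ_[p] M (p : ℤ_[p]) with hN
  have htor : Module.IsTorsionBySet ℤ_[p] N (IsLocalRing.maximalIdeal ℤ_[p] : Set ℤ_[p]) := by
    rintro ⟨x, hx⟩ ⟨a, ha⟩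
    have ha' : a ∈ IsLocalRing.maximalIdeal ℤ_[p] := ha
    rw [PadicInt.maximalIdeal_eq_span_p, Ideal.mem_span_singleton] at ha'
    obtain ⟨c, hc⟩ := ha'
    apply Subtype.ext
    show a • x = 0
    rw [hc, mul_comm, mul_smul]
    have hx' : (p : ℤ_[p]) • x = 0 := (Submodule.mem_torsionBy_iff _ _).1 hx
    rw [hx', smul_zero]
  have hfin : Finite N := by
    let _ := htor.module
    have hst : IsScalarTower ℤ_[p] (ℤ_[p] ⧸ IsLocalRing.maximalIdeal ℤ_[p]) N :=
      htor.isScalarTower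
    have h1 : Module.Finite (ℤ_[p] ⧸ IsLocalRing.maximalIdeal ℤ_[p]) N :=
      Module.Finite.of_restrictScalars_finite ℤ_[p] _ N
    have h2 : Finite (ℤ_[p] ⧸ IsLocalRing.maximalIdeal ℤ_[p]) :=
      Finite.of_equiv (ZMod p) (PadicInt.residueField (p := p)).symm.toEquiv
    exact Module.finite_of_finite (ℤ_[p] ⧸ IsLocalRing.maximalIdeal ℤ_[p])
  have hart : IsArtinian ℤ_[p] N := inferInstance
  let f : ℕ →o (Submodule ℤ_[p] N)ᵒᵈ :=
    ⟨fun m => OrderDual.toDual (((S m).map L.mkQ).comap N.subtype), fun m m' h =>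
      Submodule.comap_mono (Submodule.map_mono (hS h))⟩
  obtain ⟨m₀, hm₀⟩ := IsArtinian.monotone_stabilizes f
  have hzero : ∀ x : N, x ∈ ((S m₀).map L.mkQ).comap N.subtype → x = 0 := by
    intro x hx
    have hall : ∀ m, x ∈ ((S m).map L.mkQ).comap N.subtype := by
      intro m
      rcases le_total m₀ m with h | h
      · have h1 : ((S m₀).map L.mkQ).comap N.subtype = ((S m).map L.mkQ).comap N.subtype :=
          OrderDual.toDual.injective (hm₀ m h)
        rw [← h1]
        exact hx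
      · exact Submodule.comap_mono (Submodule.map_mono (hS h)) hx
    obtain ⟨h, hh⟩ := L.mkQ_surjective (x : M)
    have hhS : ∀ m, h ∈ S m := by
      intro m
      obtain ⟨h', hh', e⟩ := hall m
      have e2 : L.mkQ h' = L.mkQ h := by rw [hh]; exact e
      have e3 : h' - h ∈ L := by
        rw [← Submodule.ker_mkQ L, LinearMap.mem_ker, map_sub, e2, sub_self]
      have e4 : h = h' - (h' - h) := by abel
      rw [e4]
      exact (S m).sub_mem hh' (hLS m e3)
    have hL := hcap h hhS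
    apply Subtype.ext
    show (x : M) = 0
    rw [← hh]
    rw [← LinearMap.mem_ker, Submodule.ker_mkQ]
    exact hL
  refine ⟨m₀, ?_⟩
  intro h hh t
  induction t with
  | zero => intro h1; simpa using h1
  | succ t ih =>
    intro h1
    apply ih
    have h2 : (p : ℤ_[p]) • L.mkQ ((p : ℤ_[p]) ^ t • h) = 0 := by
      rw [← map_smul, smul_smul, ← pow_succ', ← LinearMap.mem_ker, Submodule.ker_mkQ]
      exact h1
    have h3 := hzero ⟨L.mkQ ((p : ℤ_[p]) ^ t • h), (Submodule.mem_torsionBy_iff _ _).2 h2⟩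
      ⟨(p : ℤ_[p]) ^ t • h, (S m₀).smul_mem _ hh, rfl⟩
    have h4 : L.mkQ ((p : ℤ_[p]) ^ t • h) = 0 := congrArg Subtype.val h3
    rw [← LinearMap.mem_ker, Submodule.ker_mkQ] at h4
    exact h4

end Pool.Agent.Helper10.ProC
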